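import Pool.Agent.Helper59.CW.CDC

/-!
MP_1bf3cf_lc: for every fixed bound on the weights, CIRCUIT-COVER reduces to the problem whether a given 2-factor of a cubic
graph extends to a circuit double cover: every edge `e` is replaced by a two-terminal graph `H (p e)`, and then every vertex
which is not an end of an edge of weight 2 is replaced by a grid.
-/

set_option autoImplicit false

namespace Pool.Agent.Results.MP_1bf3cf_lc.CubicTwoFactor

open Finset
open Pool.Agent.Helper59.CW

/-- There are two-terminal graphs `H 0, H 1, …` with weights such that for every finite graph `G` with weights `p`: if `p` is in
the integer cone of the circuits then all vertices have even total weight; and if all vertices have even total weight, replace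
every edge `e` by `H (p e)` (`G.edges H`) and then every vertex that is not an end of an edge of weight 2 by the grid `pole m`,
`m` the number of edge ends at the vertex, numbered by `r`; the new graph has at most `32 * (∑ e, 14 ^ p e) ^ 2` vertices, it is
cubic with weights 1 and 2, its edges of weight 2 form a perfect matching, and `p` is in the integer cone if and only if the
weights of the new graph are in the integer cone of its circuits, and if and only if the new graph has a circuit double cover
which contains the circuits of the 2-factor of the edges of weight 1. -/
theorem result : ∃ H : ℕ → Gad, ∀ G : WG, (G.InCone → G.Parity) ∧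
    (G.Parity → ∀ r : Num (G.edges H).s (G.edges H).t,
      Fintype.card ((G.edges H).verts r).V ≤ 32 * (∑ e, 14 ^ G.p e) ^ 2 ∧
      ((G.edges H).verts r).Cubic ∧ (G.InCone ↔ ((G.edges H).verts r).InCone) ∧
      (G.InCone ↔ ((G.edges H).verts r).Extends)) := by
  obtain ⟨H, _, h⟩ := cubic_reduction
  exact ⟨H, fun G => (h G).2⟩

end Pool.Agent.Results.MP_1bf3cf_lc.CubicTwoFactor
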