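import Pool.Agent.Helper97.CC.Graph

/-!
MP_1bf3cf_lc: membership in the integer cone of the circuits of a graph is decided by parity alone when every edge
`e` of weight at least 2 lies in a part of the graph of strength at least `2 p(e)` in the weighting `p`.
-/

set_option autoImplicit false

namespace Pool.Agent.Results.MP_1bf3cf_lc.LocallyStrongWeights

open Finset

variable {V E : Type} [Fintype V] [DecidableEq V] [Fintype E] [DecidableEq E]

/-- The number of times the edge with ends `s e`, `t e` is incident with `v` (a loop counts twice). -/
def ends (s t : E → V) (e : E) (v : V) : ℕ := (if s e = v then 1 else 0) + (if t e = v then 1 else 0)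

/-- A set of edges in which every vertex has even degree. -/
def IsEvenSet (s t : E → V) (C : Finset E) : Prop := ∀ v, Even (∑ e ∈ C, ends s t e v)

/-- A circuit: a minimal nonempty set of edges in which every vertex has even degree. -/
def IsCircuit (s t : E → V) (C : Finset E) : Prop :=
  C.Nonempty ∧ IsEvenSet s t C ∧ ∀ D ⊆ C, D.Nonempty → IsEvenSet s t D → D = C

/-- `p` is a nonnegative integer combination of the characteristic vectors of the circuits. -/
def InIntCone (s t : E → V) (p : E → ℕ) : Prop :=
  ∃ lam : Finset E → ℕ, (∀ C, lam C ≠ 0 → IsCircuit s t C) ∧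
    ∀ e, p e = ∑ C ∈ univ.filter (fun C : Finset E => e ∈ C), lam C

open Pool.Agent.Helper97.CC in
lemma ev_iff (s t : E → V) (C : Finset E) : Ev (inc s t) C ↔ IsEvenSet s t C := by
  have h1 : Ev (inc s t) C ↔ par (inc s t) (ind C) = 0 := by rw [par_ind]; rfl
  rw [h1, par_iff]
  unfold IsEvenSet
  apply forall_congr'
  intro v
  have h2 : (∑ e, ind C e * ((if s e = v then 1 else 0) + (if t e = v then 1 else 0)))
      = ∑ e ∈ C, ends s t e v := by
    rw [← sum_subset (subset_univ C)]
    · apply sum_congr rfl
      intro e he
      simp [ind, he, ends]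
    · intro e _ he
      simp [ind, he]
  rw [h2]

open Pool.Agent.Helper97.CC in
lemma circ_iff (s t : E → V) (C : Finset E) : Circ (inc s t) C ↔ IsCircuit s t C := by
  unfold Circ IsCircuit
  rw [ev_iff]
  refine and_congr_right fun _ => and_congr_right fun _ => ?_
  apply forall_congr'
  intro D
  rw [ev_iff]

lemma list_sum (L : List (Finset E)) (e : E) :
    L.countP (fun C => e ∈ C) = ∑ C ∈ univ.filter (fun C : Finset E => e ∈ C), L.count C := by
  induction L with
  | nil => simp
  | cons C0 L ih =>
    rw [List.countP_cons, ih]
    have h1 : ∀ C : Finset E, (C0 :: L).count C = L.count C + (if C0 = C then 1 else 0) := by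
      intro C
      rw [List.count_cons]
      simp
    simp only [h1]
    rw [sum_add_distrib, sum_ite_eq]
    by_cases h : e ∈ C0 <;> simp [h]

open Pool.Agent.Helper97.CC in
/-- If every edge `e` of weight at least 2 has both ends in a vertex set `X` such that, for every partition of `X`,
the total weight of the edges inside `X` joining different classes is at least `2 p(e)` times the number of
classes minus one, then `p` is in the integer cone of the circuits if and only if every weighted degree is even. -/
theorem result {V E : Type} [Fintype V] [DecidableEq V] [Fintype E] [DecidableEq E] (s t : E → V) (p : E → ℕ)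
    (h : ∀ e, 2 ≤ p e → ∃ X : Finset V, s e ∈ X ∧ t e ∈ X ∧ ∀ c : V → ℕ,
      2 * p e * ((X.image c).card - 1)
        ≤ ∑ f ∈ univ.filter (fun f => s f ∈ X ∧ t f ∈ X ∧ c (s f) ≠ c (t f)), p f) :
    InIntCone s t p ↔ ∀ v, Even (∑ e, p e * ends s t e v) := by
  constructor
  · rintro ⟨lam, h1, h2⟩ v
    have h3 : ∑ e, p e * ends s t e v = ∑ C, lam C * ∑ e ∈ C, ends s t e v := by
      calc ∑ e, p e * ends s t e v
          = ∑ e, ∑ C, if e ∈ C then lam C * ends s t e v else 0 := by
            apply sum_congr rfl
            intro e _
            rw [h2 e, sum_mul, sum_filter]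
        _ = ∑ C : Finset E, ∑ e, if e ∈ C then lam C * ends s t e v else 0 := sum_comm
        _ = ∑ C, lam C * ∑ e ∈ C, ends s t e v := by
            apply sum_congr rfl
            intro C _
            rw [mul_sum, ← sum_filter]
            apply sum_congr _ (fun _ _ => rfl)
            ext e; simp
    rw [h3]
    apply Finset.even_sum
    intro C _
    by_cases hC : lam C = 0
    · rw [hC, zero_mul]; exact Even.zero
    · exact ((h1 C hC).2.1 v).mul_left _
  · intro hp
    obtain ⟨L, h1, h2⟩ := main_graph s t p h hp
    refine ⟨fun C => L.count C, ?_, ?_⟩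
    · intro C hC
      rw [← circ_iff]
      exact h1 C (List.count_pos_iff.1 (Nat.pos_of_ne_zero hC))
    · intro e
      rw [h2 e]
      exact list_sum L e

end Pool.Agent.Results.MP_1bf3cf_lc.LocallyStrongWeights
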